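import Pool.Agent.Run7.h385.CR.All
import Pool.Agent.Run7.h437.CR.HTG

/-!
# Primes `|n² + a|` in every window of length `X^(1/6) (log X)^B`, for almost all `a`

For all `U` and `C` there is `B` such that for every window `(m, m + H]` with `H ≥ X^(1/6) (log X)^B` and
`m + H ≤ √X (log X)^C` (the window may lie anywhere in this range), all but at most `X / (log X)^U` of the integers
`|a| ≤ X` satisfy: the product `h_a` of the problem converges to a positive number and the number of the `n` in the window
for which `|n² + a|` is a prime is the number predicted by Hardy and Littlewood, `h_a ∑ 1 / log |n² + a|` (sum over the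
window), up to the relative error `(log X)^(-U)`.

Proof. Second moment over `a` of the sum over the window of `f(±(n² + a))`, where `f` is the indicator function of the
primes minus its sieve model: by Parseval it is at most `∫ |F|² |W|²` with the exponential sums `F` of `f` and `W` of the
squares in the window. On the minor arcs `W` is small by Weyl's inequality. The major arcs have the radius
`(log X)^B / H²`, and there `F` is small in mean square by Gallagher's lemma, because primes are well distributed, also
with additive characters, in almost all intervals of length `x^(1/3) (log x)^B` (Heath-Brown's identity, bounds of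
Vinogradov and Korobov for Dirichlet characters and mean values of Dirichlet polynomials: project CR). The sieve model is
summed over the window by the fundamental lemma; the infinite product is compared with the finite one for almost all `a`.
-/

set_option autoImplicit false

namespace Pool.Agent.Results.MP_391708_nt.EveryWindowSixth

open Finset Filter Topology

/-- the product of `1 - (-a | w) / (w - 1)` over the odd primes `w ≤ X` -/
noncomputable def hprod (a : ℤ) (X : ℕ) : ℝ :=
  ∏ w ∈ (range (X + 1)).filter (fun w => Nat.Prime w ∧ w ≠ 2), (1 - (jacobiSym (-a) w : ℝ) / ((w : ℝ) - 1))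

/-- the number of the `n` in the window `(m, m + H]` for which `|n² + a|` is a prime -/
def P (a : ℤ) (m H : ℕ) : ℕ := #((Ioc m (m + H)).filter (fun n : ℕ => Nat.Prime ((n : ℤ) ^ 2 + a).natAbs))

/-- the sum of `1 / log |n² + a|` over the window `(m, m + H]` -/
noncomputable def W (a : ℤ) (m H : ℕ) : ℝ := ∑ n ∈ Ioc m (m + H), 1 / Real.log ((n : ℤ) ^ 2 + a).natAbs

theorem result : ∀ U C : ℕ, ∃ B X₀ : ℕ, ∀ X : ℕ, X₀ ≤ X → ∀ m H : ℕ,
    (X : ℝ) ^ (1 / 6 : ℝ) * Real.log X ^ B ≤ H → (m : ℝ) + H ≤ √X * Real.log X ^ C →
    ∃ Bad ⊆ Icc (-(X : ℤ)) X, (#Bad : ℝ) ≤ X / Real.log X ^ U ∧ ∀ a ∈ Icc (-(X : ℤ)) X, a ∉ Bad →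
      (∀ n ∈ Ioc m (m + H), 2 ≤ ((n : ℤ) ^ 2 + a).natAbs) ∧
      ∃ h : ℝ, 0 < h ∧ Tendsto (fun N : ℕ => hprod a N) atTop (𝓝 h) ∧
        |(P a m H : ℝ) - h * W a m H| ≤ (h * W a m H) / Real.log X ^ U :=
  Run7.h385.CR.t1_of Run7.h437.CR.ht

end Pool.Agent.Results.MP_391708_nt.EveryWindowSixth
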