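import Mathlib
import Pool.Agent.Run7.h757.BP.Fin
import Pool.Agent.Run7.h757.BP.Spc
import Pool.Agent.Run7.h757.BP.Tii
import Pool.Agent.Run7.h757.BP.Bil
import Pool.Agent.Run7.h757.BP.Ti
import Pool.Agent.Run7.h757.BP.Vau
import Pool.Agent.Run7.h994.BP.ES
import Pool.Agent.Run7.h994.BP.Tri
import Pool.Agent.Run7.h994.BP.FM
import Pool.Agent.Run7.h136.BP.UP
import Pool.Agent.Run7.h136.BP.SQ
import Pool.Agent.Run7.h136.BP.AV

/-!
# Primes `n² + a` for a positive proportion of the `a ≤ A`, `A ≥ N^(1/2+ε)`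

For every `η > 0` there is a `c > 0`, depending only on `η`, such that for all `N^(1/2+ε) ≤ A ≤ N` (`N` large in terms of
`ε` and `η`) at least `c A` of the integers `1 ≤ a ≤ A` satisfy `P_a(N) ≥ (1 - η) (1/2) h_a ∫_2^N dt / log t`, with the
constant `h_a` of the problem (which is shown to exist for these `a`).

Proof. The sum of `P_a(N)` over `a ≤ A` counts the primes `p` with `√p` close to an integer from below. Weighted with a
triangle function it is evaluated asymptotically for `A ≥ N^(1/2+ε)`: the exponential sums over primes `∑ Λ(k) e(h √k)` are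
bounded, on average over `h ≤ N^(1/2-ε)`, by Vaughan's identity, a double large sieve for the pairs `(h, k)` with the spacing of
the numbers `h √k` (type II) and van der Corput's second derivative test (type I). An upper bound sieve and the second
moment of the singular series over `a ≤ A` show that the first moment cannot be carried by few `a`, and if almost all `a`
had less than `1 - η` times the expected number of primes then the first moment would be too small: the singular series
is comparable with its average on a set of positive proportion.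
-/

set_option autoImplicit false

namespace Pool.Agent.Results.MP_391708_nt.PositiveProportionThin

open Finset Filter Topology

/-- the number of `1 ≤ n ≤ N` for which `|n² + a|` is a prime -/
def P (a : ℤ) (N : ℕ) : ℕ := #((Icc 1 N).filter (fun n : ℕ => Nat.Prime ((n : ℤ) ^ 2 + a).natAbs))

/-- the product of `1 - (-a | w) / (w - 1)` over the odd primes `w ≤ X` -/
noncomputable def hprod (a : ℤ) (X : ℕ) : ℝ :=
  ∏ w ∈ (range (X + 1)).filter (fun w => Nat.Prime w ∧ w ≠ 2), (1 - (jacobiSym (-a) w : ℝ) / ((w : ℝ) - 1))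

/-- `P_a(N)` is at least `1 - η` times the number predicted by Hardy and Littlewood -/
def Good (η : ℝ) (N : ℕ) (a : ℤ) : Prop :=
  ∃ h : ℝ, 0 < h ∧ Tendsto (fun X : ℕ => hprod a X) atTop (𝓝 h) ∧
    (1 - η) * (1 / 2 * h * ∫ t in (2 : ℝ)..(N : ℝ), 1 / Real.log t) ≤ P a N

open Classical in
theorem result : ∀ η : ℝ, 0 < η → ∃ c : ℝ, 0 < c ∧ ∀ ε : ℝ, 0 < ε → ∃ N₀ : ℕ, ∀ N : ℕ, N₀ ≤ N →
    ∀ A : ℕ, (N : ℝ) ^ (1 / 2 + ε) ≤ A → A ≤ N →
      c * A ≤ #((Icc 1 A).filter (fun a : ℕ => Good η N a)) := by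
  intro η hη
  obtain ⟨c, hc, h⟩ := Run7.h757.BP.Fin.main
    (Run7.h994.BP.fm (Run7.h994.BP.tri_of_es (Run7.h994.BP.es Run7.h757.BP.Vau.vau
      (Run7.h757.BP.Bil.bil (Run7.h757.BP.Tii.tii Run7.h757.BP.Spc.spc)) Run7.h757.BP.Ti.ti)))
    Run7.h136.BP.up Run7.h136.BP.sq Run7.h136.BP.av η hη
  refine ⟨c, hc, fun ε hε => ?_⟩
  obtain ⟨N₀, h0⟩ := h ε hε
  refine ⟨N₀, fun N hN A hA1 hA2 => ?_⟩
  refine (h0 N hN A hA1 hA2).trans ?_
  rw [Nat.cast_le]
  refine card_le_card (fun a ha => ?_)
  rw [mem_filter] at ha ⊢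
  refine ⟨ha.1, ?_⟩
  obtain ⟨-, t, ht0, ht1, ht2⟩ := ha
  refine ⟨t, ht0, ht1, ht2.trans (le_of_eq ?_)⟩
  rfl

end Pool.Agent.Results.MP_391708_nt.PositiveProportionThin
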