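import Pool.Agent.R460.SC.Fc
import Pool.Agent.Run7.h702.CL.Traj
import Pool.Agent.Run7.h702.AT.E

set_option autoImplicit false

/-!
# Primes `n² + a` for all the terms `a` of almost every Collatz trajectory

Let `f` be any function which tends to infinity. For almost all `m` (in the sense of the natural density) the trajectory
of `m` under the Collatz map `m / 2`, `3 m + 1` takes a value smaller than `f m` and *every* term before the first such
value, and every multiple `a` of such a term `t` by a factor `u`, `0 < |u| ≤ (log t)^U`, of both signs, satisfies the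
formula of Hardy and Littlewood for the primes `|n² + a|` at its own scale, with the convergent product `h_a`:

`∑_{n ≤ y, |n² + a| prime} log |n² + a| = h_a y + O(√|a| / (log |a|)^C)` for all `y ≤ √|a|`.

Quantitatively: all but at most `K N / (log Y)^A` of the `m ≤ N` have this property up to the first value smaller than
`Y`, for all `Y` and `N` (`K` depends on `A`, `C`, `U` only). So the exceptional set of the formula, of which one only
knows that it has at most `X / (log X)^A` elements up to `X`, is not met by the trajectories.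

The steps: (1) the class theorem for the moduli up to `X ^ (1 / 2 - ρ)` (`R460/SC`), applied to the powers of `3` up to
`exp (C √(log X))` and their multiples, shows that the `x` with a bad multiple are rare in the residue classes modulo the
powers of `3`; (2) the mixing of the Syracuse random variables at fine scales and in natural density (starting libraries
`H499R2`, `R344/TH`) carries such a bound from the lowest scales to all scales; at the lowest scales the terms
`T^k m` of a class modulo `2^k 3^j` are distributed over one class modulo `3^(a + j)`, `a` the number of the odd steps.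

The last part of the theorem concerns the maps `q x + c` (`T n = n / 2` for an even `n` and `(q n + c) / 2` for an odd
`n`, `q`, `c` odd and coprime), for which there is no such mixing theorem: the first `κ log N` terms,
`κ (2 log 2 + log q) < 2`.
-/

namespace Pool.Agent.Results.MP_391708_nt.TrajectoriesOfSyracuseMaps

open Finset Filter Topology

/-- The product which defines `h_a`, over the odd primes `w ≤ z` (`jacobiSym (-a) w` is the Legendre symbol). -/
noncomputable def product (a : ℤ) (z : ℕ) : ℝ :=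
  ∏ w ∈ (Icc 3 z).filter Nat.Prime, (1 - (jacobiSym (-a) w : ℝ) / ((w : ℝ) - 1))

/-- `H = h_a`: the product over the odd primes, in increasing order, converges to `H`. -/
def IsConstant (a : ℤ) (H : ℝ) : Prop := Tendsto (product a) atTop (𝓝 H)

/-- The sum of `log |n² + a|` over the `n`, `1 ≤ n ≤ y`, for which `|n² + a|` is prime. -/
noncomputable def theta (a : ℤ) (y : ℕ) : ℝ :=
  ∑ n ∈ Icc 1 y, if ((n : ℤ) ^ 2 + a).natAbs.Prime then Real.log (((n : ℤ) ^ 2 + a).natAbs : ℝ) else 0

/-- The conclusion for one integer `a`: there is a prime `|n² + a|` with `1 ≤ n ≤ √(2 |a|)`, the product `h_a`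
converges, and for all `y ≤ √|a|` the primes `|n² + a|`, `n ≤ y`, are counted by the formula of Hardy and Littlewood. -/
def Good (C : ℕ) (a : ℤ) : Prop :=
  (∃ n : ℕ, 1 ≤ n ∧ n ^ 2 ≤ 2 * a.natAbs ∧ ((n : ℤ) ^ 2 + a).natAbs.Prime) ∧
  ∃ H : ℝ, IsConstant a H ∧ ∀ y : ℕ, y ^ 2 ≤ a.natAbs →
    |theta a y - H * y| ≤ Real.sqrt a.natAbs / Real.log a.natAbs ^ C

/-- One step of the `q x + c` map. -/
def step (q c n : ℕ) : ℕ := if n % 2 = 0 then n / 2 else (q * n + c) / 2

open Classical in
/-- The number of the starting values `m`, `1 ≤ m ≤ N`, for which some element `T^k m`, `k ≤ K`, of the trajectory has a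
multiple `u T^k m`, `0 < |u| ≤ V`, for which the conclusion fails. -/
noncomputable def exceptions (q c C : ℕ) (K V : ℝ) (N : ℕ) : ℕ :=
  ((Icc 1 N).filter (fun m : ℕ => ∃ (k : ℕ) (u : ℤ), (k : ℝ) ≤ K ∧ u ≠ 0 ∧ (u.natAbs : ℝ) ≤ V ∧
    ¬ Good C (u * (((step q c)^[k] m : ℕ) : ℤ)))).card

theorem few (C : ℕ) : Run7.h702.CL.Few (1 / 2) (fun c => 0 ^ 2 - 4 * 1 * c)
    (fun X c => ¬ Pool.Agent.R460.SC.GoodW 1 0 C X c) := by
  classical
  intro ρ hρ A T
  obtain ⟨X₀, h0⟩ := Pool.Agent.R460.SC.fin_w (a := 1) (b := 0) one_ne_zero ρ hρ A C T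
  refine ⟨X₀, fun X hX q hq hqX hτ c₀ hc₀ => le_trans (le_of_eq ?_) (h0 X hX q hq hqX hτ c₀ hc₀)⟩
  unfold Run7.h702.CL.num
  refine congrArg (fun s : Finset ℤ => ((s.card : ℕ) : ℝ)) ?_
  ext x
  rw [Run7.h702.CL.mem_bad, mem_filter, mem_Icc, ← abs_le]

theorem hf (a : ℤ) (n : ℕ) : Pool.Agent.R460.SB.fv (-1) 0 a n = (n : ℤ) ^ 2 + a := by
  unfold Pool.Agent.R460.SB.fv
  ring

theorem own (C : ℕ) : Run7.h702.CL.Few (1 / 2) (fun c => 0 ^ 2 - 4 * 1 * c) (fun _ c => ¬ Good C c) := by
  refine Run7.h702.CL.Few.own (by norm_num) (few (C + 1)) (Good C) 100 ?_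
  intro X c hX hcX hXc hng hg
  apply hng
  unfold Pool.Agent.R460.SC.GoodW at hg
  have e2 : (fun z : ℕ => Pool.Agent.R460.SB.Sz (-1) 0 c z) = product c := by
    funext z
    exact Pool.Agent.R460.SB.Sz_leg c z
  simp only [neg_zero, e2, hf] at hg
  obtain ⟨g1, H, g2, g3⟩ := hg
  have hlocal : ∀ p : ℕ, p.Prime → ∃ m : ℕ, ¬ (p : ℤ) ∣ (m : ℤ) ^ 2 + c := by
    intro p hp
    by_contra hno
    push Not at hno
    have k0 := hno 0
    have k1 := hno 1
    have k2 := dvd_sub k1 k0
    norm_num at k2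
    have := Int.le_of_dvd one_pos k2
    have := hp.two_le
    omega
  obtain ⟨n, hn1, hn2, hn3⟩ := g1 hlocal
  obtain ⟨a, ha⟩ : ∃ a, a = c.natAbs := ⟨_, rfl⟩
  have hca : |c| = (a : ℤ) := by rw [ha, Int.natCast_natAbs]
  rw [hca] at hcX hXc
  have haX : a ≤ X := by exact_mod_cast hcX
  have hXa : X ≤ 2 * a := by exact_mod_cast hXc
  unfold Good
  rw [← ha]
  refine ⟨⟨n, hn1, by omega, hn3⟩, H, g2, fun y hy => ?_⟩
  refine (g3 y (by omega)).trans ?_
  have ha50 : (50 : ℝ) ≤ a := by
    have : 50 ≤ a := by omega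
    exact_mod_cast this
  have hla : 2 ≤ Real.log a := by
    rw [Real.le_log_iff_exp_le (by linarith)]
    have h1 : Real.exp 2 = Real.exp 1 * Real.exp 1 := by rw [← Real.exp_add]; norm_num
    have h2 := Real.exp_one_lt_d9
    have h3 := Real.exp_pos 1
    rw [h1]
    nlinarith
  have haXr : (a : ℝ) ≤ X := by exact_mod_cast haX
  have hXar : (X : ℝ) ≤ 4 * a := by
    have : (X : ℝ) ≤ 2 * a := by exact_mod_cast hXa
    linarith
  have hlX : Real.log a ≤ Real.log X := Real.log_le_log (by linarith) haXr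
  have hs : Real.sqrt X ≤ 2 * Real.sqrt a := by
    have h1 : Real.sqrt X ≤ Real.sqrt (2 ^ 2 * a) := Real.sqrt_le_sqrt (by linarith)
    rw [Real.sqrt_mul (by norm_num), Real.sqrt_sq (by norm_num)] at h1
    exact h1
  calc Real.sqrt X / Real.log X ^ (C + 1) ≤ (2 * Real.sqrt a) / Real.log a ^ (C + 1) := by
        apply div_le_div₀ (by positivity) hs (by positivity)
        exact pow_le_pow_left₀ (by linarith) hlX _
    _ = (Real.sqrt a / Real.log a ^ C) * (2 / Real.log a) := by
        rw [pow_succ]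
        have : Real.log a ≠ 0 := by linarith
        field_simp
    _ ≤ (Real.sqrt a / Real.log a ^ C) * 1 := by
        apply mul_le_mul_of_nonneg_left _ (by positivity)
        rw [div_le_one (by linarith)]
        exact hla
    _ = _ := mul_one _

/-- The Collatz map. -/
def collatz (n : ℕ) : ℕ := if n % 2 = 0 then n / 2 else 3 * n + 1

/-- The Collatz trajectory of `m` takes a value smaller than `Y`, and all its terms `t = T^j m` before some such value
and all the multiples `u t`, `0 < |u| ≤ (log t)^U`, satisfy the conclusion. -/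
def AllTermsGood (C U : ℕ) (Y : ℝ) (m : ℕ) : Prop :=
  ∃ k : ℕ, ((collatz^[k] m : ℕ) : ℝ) < Y ∧ ∀ j < k, ∀ u : ℤ, u ≠ 0 →
    (u.natAbs : ℝ) ≤ Real.log (collatz^[j] m : ℕ) ^ U → Good C (u * (collatz^[j] m : ℕ))

theorem hg4 (u : ℤ) (s m : ℕ) (hsm : Nat.Coprime s m) :
    Int.gcd (0 ^ 2 - 4 * 1 * (u * (s : ℤ))) ((u.natAbs * m : ℕ) : ℤ) ≤ 4 * u.natAbs := by
  have e : (0 ^ 2 - 4 * 1 * (u * (s : ℤ)) : ℤ) = -(u * ((4 * s : ℕ) : ℤ)) := by push_cast; ring
  rw [e, Int.neg_gcd]
  unfold Int.gcd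
  rw [Int.natAbs_mul, Int.natAbs_natCast, Int.natAbs_natCast, Nat.gcd_mul_left, mul_comm 4 u.natAbs]
  apply Nat.mul_le_mul_left
  have h1 : Nat.gcd (4 * s) m ∣ 4 := by
    have h2 : Nat.gcd (4 * s) m ∣ 4 * s := Nat.gcd_dvd_left _ _
    have h3 : Nat.Coprime (Nat.gcd (4 * s) m) s := by
      have : Nat.Coprime m s := hsm.symm
      exact Nat.Coprime.coprime_dvd_left (Nat.gcd_dvd_right _ _) this
    exact h3.dvd_of_dvd_mul_right h2
  exact Nat.le_of_dvd (by norm_num) h1

theorem maps (q c : ℕ) (hq : Odd q) (hc : Odd c) (hcq : Nat.Coprime c q) (κ : ℝ) (hκ0 : 0 < κ)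
    (hκ : κ * (2 * Real.log 2 + Real.log q) < 2) (A C U : ℕ) :
    ∃ N₀ : ℕ, ∀ N : ℕ, N₀ ≤ N →
      (exceptions q c C (κ * Real.log N) (Real.log N ^ U) N : ℝ) ≤ N / Real.log N ^ A := by
  classical
  obtain ⟨N₀, h⟩ := Run7.h702.CL.core' hq hc hcq (1 / 2) κ (by norm_num) (by norm_num) hκ0 (by linarith) (Good C)
    (fun c => 0 ^ 2 - 4 * 1 * c) 4 hg4 (own C) A U
  refine ⟨N₀, fun N hN => le_trans (le_of_eq ?_) (h N hN)⟩
  unfold exceptions
  congr 2

open Classical in
theorem result :
    (∀ A C U : ℕ, ∃ K : ℝ, 0 < K ∧ ∀ Y : ℝ, 2 ≤ Y → ∀ N : ℕ,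
      (((Icc 1 N).filter (fun m : ℕ => ¬ AllTermsGood C U Y m)).card : ℝ) ≤ K * N / Real.log Y ^ A) ∧
    (∀ (C U : ℕ) (f : ℕ → ℝ), Tendsto f atTop atTop →
      Tendsto (fun N : ℕ => (((Icc 1 N).filter (fun m : ℕ => AllTermsGood C U (f m) m)).card : ℝ) / N) atTop (𝓝 1)) ∧
    (∀ q c : ℕ, Odd q → Odd c → Nat.Coprime c q → ∀ κ : ℝ, 0 < κ → κ * (2 * Real.log 2 + Real.log q) < 2 →
      ∀ A C U : ℕ, ∃ N₀ : ℕ, ∀ N : ℕ, N₀ ≤ N →
        (exceptions q c C (κ * Real.log N) (Real.log N ^ U) N : ℝ) ≤ N / Real.log N ^ A) := by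
  refine ⟨fun A C U => ?_, fun C U f hf => ?_, fun q c hq hc hcq κ hκ0 hκ A C U => maps q c hq hc hcq κ hκ0 hκ A C U⟩
  · exact Run7.h702.AT.all_nat (θ := 1 / 2) (by norm_num) hg4 (own C) A U
  · exact Run7.h702.AT.all_nat_almost (θ := 1 / 2) (by norm_num) hg4 (own C) U f hf

end Pool.Agent.Results.MP_391708_nt.TrajectoriesOfSyracuseMaps
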